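import Mathlib

/-!
# Monotone normality of nabla products of countable ordinals below `ω ^ ω`

The space `ω * ω + 1` embeds into the square of `ω + 1`, and more generally every ordinal below
`ω ^ ω` embeds into a finite power of `ω + 1`: a point `x ≤ ω * d` is sent to the pair of the
least `k ≤ d` with `x ≤ ω * k`, and of `ω` if `x` is a multiple of `ω`, and otherwise its number in
an enumeration of the points which are not multiples of `ω`.  Therefore the nabla power of each
ordinal below `ω ^ ω` embeds into the nabla power of `ω + 1`, and monotone normality is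
hereditary.
-/

namespace Pool.Agent.Results.MP_1ca6f4_lc.BelowOmegaOmega

open Topology Set
open Ordinal (omega0)
open scoped Ordinal

/-- The product `X ^ ω`, to be equipped with the box topology. -/
def Box (X : Type*) : Type _ := ℕ → X

/-- The box topology: the products of open sets form a base. -/
instance (X : Type*) [TopologicalSpace X] : TopologicalSpace (Box X) :=
  TopologicalSpace.generateFrom
    {S | ∃ U : ℕ → Set X, (∀ n, IsOpen (U n)) ∧ S = {x : Box X | ∀ n, x n ∈ U n}}

/-- Two points of the box product are equivalent when they differ in finitely many coordinates. -/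
instance modFinite (X : Type*) : Setoid (Box X) where
  r x y := {n | x n ≠ y n}.Finite
  iseqv :=
    { refl := fun x => by simp
      symm := fun {x y} h => by
        refine h.subset ?_
        intro n hn
        exact fun e => hn e.symm
      trans := fun {x y z} h h' => by
        refine (h.union h').subset ?_
        intro n hn
        by_contra hc
        simp only [mem_union, mem_ofPred_eq, not_or, not_not] at hc
        exact hn (hc.1.trans hc.2) }

/-- The nabla product `∇ X ^ ω` with the quotient topology. -/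
abbrev Nabla (X : Type*) : Type _ := Quotient (modFinite X)

/-- Monotone normality. -/
def MonotonicallyNormal (Z : Type*) [TopologicalSpace Z] : Prop :=
  ∃ H : Z → Set Z → Set Z,
    (∀ x U, IsOpen U → x ∈ U → IsOpen (H x U) ∧ x ∈ H x U ∧ H x U ⊆ U) ∧
    ∀ x U y V, IsOpen U → x ∈ U → IsOpen V → y ∈ V →
      (H x U ∩ H y V).Nonempty → x ∈ V ∨ y ∈ U

/-- `Δ α`: the nabla product `∇ (α) ^ ω` is monotonically normal, where `α` is the space of the
ordinals below `α` with the order topology. -/
def Δ (α : Ordinal.{0}) : Prop := MonotonicallyNormal (Nabla (Iio α))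

/-! ### Open sets in box and nabla products -/

lemma box_isOpen {X : Type*} [TopologicalSpace X] {T : Set (Box X)} :
    IsOpen T ↔ ∀ x ∈ T, ∃ U : ℕ → Set X, (∀ n, IsOpen (U n) ∧ x n ∈ U n) ∧
      ∀ x' : Box X, (∀ n, x' n ∈ U n) → x' ∈ T := by
  constructor
  · intro h
    induction h with
    | basic s hs =>
      obtain ⟨U, hU, rfl⟩ := hs
      exact fun x hx => ⟨U, fun n => ⟨hU n, hx n⟩, fun x' h => h⟩
    | univ => exact fun x _ => ⟨fun _ => univ, fun n => ⟨isOpen_univ, mem_univ _⟩, fun _ _ => mem_univ _⟩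
    | inter s t _ _ ihs iht =>
      intro x hx
      obtain ⟨U, hU, hU'⟩ := ihs x hx.1
      obtain ⟨V, hV, hV'⟩ := iht x hx.2
      refine ⟨fun n => U n ∩ V n, fun n => ⟨(hU n).1.inter (hV n).1, (hU n).2, (hV n).2⟩, ?_⟩
      exact fun x' h => ⟨hU' x' fun n => (h n).1, hV' x' fun n => (h n).2⟩
    | sUnion S _ ih =>
      rintro x ⟨s, hs, hx⟩
      obtain ⟨U, hU, hU'⟩ := ih s hs x hx
      exact ⟨U, hU, fun x' h => ⟨s, hs, hU' x' h⟩⟩
  · intro h
    choose! U hU hU' using h
    have : T = ⋃ x ∈ T, {x' : Box X | ∀ n, x' n ∈ U x n} := by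
      ext y
      simp only [mem_iUnion, exists_prop, mem_ofPred_eq]
      exact ⟨fun hy => ⟨y, hy, fun n => (hU y hy n).2⟩, fun ⟨x, hx, h⟩ => hU' x hx y h⟩
    rw [this]
    refine isOpen_biUnion fun x hx => ?_
    exact TopologicalSpace.isOpen_generateFrom_of_mem ⟨U x, fun n => (hU x hx n).1, rfl⟩

lemma nabla_isOpen {X : Type*} [TopologicalSpace X] {S : Set (Nabla X)} :
    IsOpen S ↔ ∀ x : Box X, (⟦x⟧ : Nabla X) ∈ S → ∃ U : ℕ → Set X,
      (∀ n, IsOpen (U n) ∧ x n ∈ U n) ∧
      ∀ x' : Box X, {n | x' n ∉ U n}.Finite → (⟦x'⟧ : Nabla X) ∈ S := by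
  have h0 : IsOpen S ↔ IsOpen ((fun x : Box X => (⟦x⟧ : Nabla X)) ⁻¹' S) := Iff.rfl
  rw [h0, box_isOpen]
  constructor
  · intro h x hx
    obtain ⟨U, hU, hU'⟩ := h x hx
    refine ⟨U, hU, fun x' hx' => ?_⟩
    classical
    let y : Box X := fun n => if x' n ∈ U n then x' n else x n
    have hy : (⟦y⟧ : Nabla X) ∈ S := by
      apply hU' y
      intro n
      by_cases hn : x' n ∈ U n
      · simp only [y, hn, if_true]
      · simp only [y, hn, if_false]
        exact (hU n).2
    have hyx : (⟦y⟧ : Nabla X) = ⟦x'⟧ := by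
      apply Quotient.sound
      refine hx'.subset ?_
      intro n hn hn'
      exact hn (by simp only [y, hn', if_true])
    rwa [hyx] at hy
  · intro h x hx
    obtain ⟨U, hU, hU'⟩ := h x hx
    refine ⟨U, hU, fun x' hx' => hU' x' ?_⟩
    have : {n | x' n ∉ U n} = ∅ := by
      ext n
      simp [hx' n]
    rw [this]
    exact finite_empty

/-! ### Monotone normality is hereditary -/

lemma hereditary {Z W : Type*} [TopologicalSpace Z] [TopologicalSpace W] (e : Z → W)
    (hc : ∀ O, IsOpen O → IsOpen (e ⁻¹' O))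
    (hi : ∀ U x, IsOpen U → x ∈ U → ∃ O, IsOpen O ∧ e x ∈ O ∧ e ⁻¹' O ⊆ U)
    (h : MonotonicallyNormal W) : MonotonicallyNormal Z := by
  obtain ⟨H, h1, h2⟩ := h
  let t : Set Z → Set W := fun U => ⋃₀ {O | IsOpen O ∧ e ⁻¹' O ⊆ U}
  have ht : ∀ U, IsOpen (t U) := fun U => isOpen_sUnion fun O hO => hO.1
  have hm : ∀ U x, IsOpen U → x ∈ U → e x ∈ t U := fun U x hU hx => by
    obtain ⟨O, hO, hx, hs⟩ := hi U x hU hx
    exact ⟨O, ⟨hO, hs⟩, hx⟩
  have hs : ∀ U x, e x ∈ t U → x ∈ U := by
    rintro U x ⟨O, hO, hx⟩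
    exact hO.2 hx
  refine ⟨fun x U => e ⁻¹' (H (e x) (t U)), ?_, ?_⟩
  · intro x U hU hx
    obtain ⟨a, b, c⟩ := h1 (e x) (t U) (ht U) (hm U x hU hx)
    exact ⟨hc _ a, b, fun y hy => hs U y (c hy)⟩
  · rintro x U y V hU hx hV hy ⟨z, hz⟩
    rcases h2 (e x) (t U) (e y) (t V) (ht U) (hm U x hU hx) (ht V) (hm V y hV hy)
      ⟨e z, hz⟩ with h | h
    · exact Or.inl (hs V x h)
    · exact Or.inr (hs U y h)

lemma finite_fib {ι : Type*} [Finite ι] (b : ℕ ≃ ℕ × ι) {A : Set ℕ} (hA : A.Finite) :
    {m | (b m).1 ∈ A}.Finite := by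
  have h1 : (A ×ˢ (univ : Set ι)).Finite := hA.prod finite_univ
  refine (h1.preimage b.injective.injOn).subset ?_
  intro m hm
  exact ⟨hm, mem_univ _⟩

/-- If `X` embeds into a finite power of `Y`, then monotone normality of the nabla power of `Y`
gives monotone normality of the nabla power of `X`. -/
lemma nabla_of_inducing {X Y ι : Type*} [TopologicalSpace X] [TopologicalSpace Y] [Finite ι]
    (b : ℕ ≃ ℕ × ι) (e : X → ι → Y) (he : IsInducing e)
    (h : MonotonicallyNormal (Nabla Y)) : MonotonicallyNormal (Nabla X) := by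
  let f : Box X → Box Y := fun x m => e (x (b m).1) (b m).2
  have hf : ∀ x x' : Box X, x ≈ x' → f x ≈ f x' := by
    intro x x' hx
    have := finite_fib b hx
    refine this.subset ?_
    intro m hm hm'
    apply hm
    simp only [f]
    rw [hm']
  refine hereditary (Quotient.map f hf) ?_ ?_ h
  · intro O hO
    rw [nabla_isOpen] at hO ⊢
    intro x hx
    obtain ⟨V, hV, hV'⟩ := hO (f x) hx
    refine ⟨fun n => {z | ∀ i, e z i ∈ V (b.symm (n, i))}, fun n => ⟨?_, ?_⟩, fun x' hx' => ?_⟩
    · have : {z | ∀ i, e z i ∈ V (b.symm (n, i))} = e ⁻¹' (pi univ fun i => V (b.symm (n, i))) := by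
        ext z
        simp
      show IsOpen {z | ∀ i, e z i ∈ V (b.symm (n, i))}
      rw [this]
      exact (isOpen_set_pi finite_univ fun i _ => (hV _).1).preimage he.continuous
    · intro i
      have := (hV (b.symm (n, i))).2
      simpa [f] using this
    · refine hV' (f x') ((finite_fib b hx').subset ?_)
      intro m hm hm'
      apply hm
      have := hm' (b m).2
      simpa [f] using this
  · intro S q hS hq
    induction q using Quotient.inductionOn with
    | h x =>
    rw [nabla_isOpen] at hS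
    obtain ⟨U, hU, hU'⟩ := hS x hq
    have key : ∀ n, ∃ V : ι → Set Y, (∀ i, IsOpen (V i) ∧ e (x n) i ∈ V i) ∧
        ∀ z, (∀ i, e z i ∈ V i) → z ∈ U n := by
      intro n
      obtain ⟨O, hO, hOU⟩ := he.isOpen_iff.1 (hU n).1
      have hx : e (x n) ∈ O := by
        have : x n ∈ e ⁻¹' O := by rw [hOU]; exact (hU n).2
        exact this
      obtain ⟨V, hV, hV'⟩ := isOpen_pi_iff'.1 hO (e (x n)) hx
      refine ⟨V, hV, fun z hz => ?_⟩
      rw [← hOU]
      exact hV' (by simpa using hz)
    choose V hV hV' using key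
    refine ⟨{q | ∃ y : Box Y, (⟦y⟧ : Nabla Y) = q ∧ {m | y m ∉ V (b m).1 (b m).2}.Finite}, ?_, ?_, ?_⟩
    · rw [nabla_isOpen]
      classical
      rintro y' ⟨y, hy, hfin⟩
      have hy2 : {m | y m ≠ y' m}.Finite := Quotient.exact hy
      refine ⟨fun m => if y' m ∈ V (b m).1 (b m).2 then V (b m).1 (b m).2 else univ, fun m => ?_,
        fun x' hx' => ⟨x', rfl, ?_⟩⟩
      · by_cases hm : y' m ∈ V (b m).1 (b m).2
        · simp only [hm, if_true]
          exact ⟨(hV (b m).1 (b m).2).1, trivial⟩
        · simp only [hm, if_false]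
          exact ⟨isOpen_univ, mem_univ _⟩
      · refine ((hx'.union hfin).union hy2).subset ?_
        intro m hm
        by_contra hc
        simp only [mem_union, mem_ofPred_eq, not_or, not_not] at hc
        obtain ⟨⟨h1, h2⟩, h3⟩ := hc
        rw [h3] at h2
        rw [if_pos h2] at h1
        exact hm h1
    · refine ⟨f x, rfl, ?_⟩
      have : {m | f x m ∉ V (b m).1 (b m).2} = ∅ := by
        ext m
        simp only [mem_ofPred_eq, mem_empty_iff_false, iff_false, not_not]
        exact (hV (b m).1 (b m).2).2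
      rw [this]
      exact finite_empty
    · intro q' hq'
      induction q' using Quotient.inductionOn with
      | h x' =>
      obtain ⟨y, hy, hfin⟩ := hq'
      have hy2 : {m | y m ≠ f x' m}.Finite := Quotient.exact hy
      apply hU' x'
      refine ((hfin.union hy2).image fun m => (b m).1).subset ?_
      intro n hn
      have : ∃ i, e (x' n) i ∉ V n i := by
        by_contra hc
        push Not at hc
        exact hn (hV' n (x' n) hc)
      obtain ⟨i, hi⟩ := this
      refine ⟨b.symm (n, i), ?_, by simp⟩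
      by_contra hc
      simp only [mem_union, mem_ofPred_eq, not_or, not_not] at hc
      obtain ⟨h1, h2⟩ := hc
      rw [h2] at h1
      apply hi
      simpa [f] using h1

/-! ### Embedding the ordinals below `ω ^ ω` into finite powers of `ω + 1` -/

/-- The least `k` with `x ≤ ω * k`. -/
noncomputable def ceil (x : Ordinal.{0}) : Ordinal.{0} := sInf {k | x ≤ ω * k}

lemma mul_mono_iff {a b : Ordinal.{0}} : ω * a ≤ ω * b ↔ a ≤ b :=
  (Ordinal.isNormal_mul_right Ordinal.omega0_pos).strictMono.le_iff_le

lemma ceil_nonempty (x : Ordinal.{0}) : {k | x ≤ ω * k}.Nonempty :=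
  ⟨x, (Ordinal.isNormal_mul_right Ordinal.omega0_pos).strictMono.le_apply⟩

lemma le_mul_ceil (x : Ordinal.{0}) : x ≤ ω * ceil x := csInf_mem (ceil_nonempty x)

lemma ceil_le {x k : Ordinal.{0}} (h : x ≤ ω * k) : ceil x ≤ k := csInf_le' h

lemma ceil_mono {x y : Ordinal.{0}} (h : x ≤ y) : ceil x ≤ ceil y :=
  ceil_le (h.trans (le_mul_ceil y))

lemma ceil_mul (k : Ordinal.{0}) : ceil (ω * k) = k :=
  le_antisymm (ceil_le le_rfl) (mul_mono_iff.1 (le_mul_ceil (ω * k)))

lemma ceil_continuous : Continuous ceil := by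
  rw [continuous_iff_continuousAt]
  intro x
  rw [ContinuousAt, tendsto_order]
  constructor
  · intro a ha
    have h1 : ω * a < x := by
      by_contra h
      exact absurd (ceil_le (not_lt.1 h)) (not_le.2 ha)
    filter_upwards [lt_mem_nhds h1] with y hy
    by_contra h
    have h2 := (le_mul_ceil y).trans (mul_mono_iff.2 (not_lt.1 h))
    exact absurd hy (not_lt.2 h2)
  · intro a ha
    have h1 : x < Order.succ (ω * ceil x) := Order.lt_succ_iff.2 (le_mul_ceil x)
    filter_upwards [gt_mem_nhds h1] with y hy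
    exact (ceil_le (Order.lt_succ_iff.1 hy)).trans_lt ha

instance compact_Iic (a : Ordinal.{0}) : CompactSpace (Iic a) := by
  rw [← isCompact_iff_compactSpace]
  have : Iic a = Icc 0 a := by
    ext x
    simp
  rw [this]
  exact isCompact_Icc

lemma countable_Iic {a : Ordinal.{0}} (h : a.card ≤ Cardinal.aleph0) : (Iic a).Countable := by
  have h1 : Iic a = insert a (Iio a) := by
    ext x
    simp [le_iff_eq_or_lt]
  rw [h1]
  refine Set.Countable.insert a ?_
  rw [← Cardinal.le_aleph0_iff_set_countable, Cardinal.mk_Iio_ordinal, Cardinal.lift_le_aleph0]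
  exact h

/-- The embedding of `ω * d + 1` into the product of `d + 1` and `ω + 1`. -/
lemma exists_embedding (d : Ordinal.{0}) (hd : (Iic (ω * d)).Countable) :
    ∃ e : Iic (ω * d) → Iic d × Iic (ω : Ordinal.{0}), Continuous e ∧ Function.Injective e := by
  classical
  have : Countable (Iic (ω * d)) := hd
  obtain ⟨enc, henc⟩ := exists_injective_nat (Iic (ω * d))
  let c : Iic (ω * d) → Iic d := fun x => ⟨ceil x.1, ceil_le x.2⟩
  let g : Iic (ω * d) → Iic (ω : Ordinal.{0}) := fun x =>
    if ω ∣ x.1 then ⟨ω, le_refl (ω : Ordinal.{0})⟩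
    else ⟨(enc x : Ordinal.{0}), (Ordinal.natCast_lt_omega0 _).le⟩
  have g1 : ∀ x : Iic (ω * d), ω ∣ x.1 → (g x).1 = ω := fun x h => by
    simp only [g, h, if_true]
  have g2 : ∀ x : Iic (ω * d), ¬ ω ∣ x.1 → (g x).1 = (enc x : Ordinal.{0}) := fun x h => by
    simp only [g, h, if_false]
  have hc : Continuous c := by
    exact (ceil_continuous.comp continuous_subtype_val).subtype_mk _
  have hg : Continuous g := by
    rw [continuous_iff_continuousAt]
    intro x
    by_cases hx : ω ∣ x.1
    · rw [ContinuousAt, tendsto_subtype_rng, tendsto_order]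
      rw [g1 x hx]
      constructor
      · intro a ha
        obtain ⟨m, rfl⟩ := Ordinal.lt_omega0.1 ha
        have hfin : {y : Iic (ω * d) | enc y ≤ m ∧ ¬ ω ∣ y.1}.Finite := by
          refine ((finite_Iic m).preimage henc.injOn).subset ?_
          intro y hy
          exact hy.1
        have := hfin.isClosed.isOpen_compl.mem_nhds (x := x) (fun h => h.2 hx)
        filter_upwards [this] with y hy
        by_cases hy2 : ω ∣ y.1
        · rw [g1 y hy2]
          exact ha
        · rw [g2 y hy2]
          have : m < enc y := by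
            by_contra hle
            exact hy ⟨not_lt.1 hle, hy2⟩
          exact_mod_cast this
      · intro a ha
        exact Filter.Eventually.of_forall fun y => lt_of_le_of_lt (g y).2 ha
    · have h1 : ¬ Order.IsSuccLimit x.1 := fun h =>
        hx (Ordinal.isSuccPrelimit_iff_omega0_dvd.1 h.isSuccPrelimit)
      have h2 : 𝓝 x = pure x := by
        rw [nhds_subtype_eq_comap, SuccOrder.nhds_eq_pure.2 h1]
        ext s
        simp only [Filter.comap_pure, Filter.mem_principal, Filter.mem_pure]
        constructor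
        · intro h
          exact h rfl
        · rintro h y hy
          have : y = x := Subtype.ext hy
          rwa [this]
      rw [ContinuousAt, h2]
      exact tendsto_pure_nhds g x
  have hinj : Function.Injective fun x => (c x, g x) := by
    intro x y hxy
    simp only [Prod.mk.injEq] at hxy
    obtain ⟨hc1, hg1⟩ := hxy
    have hc2 : ceil x.1 = ceil y.1 := congrArg Subtype.val hc1
    have hg2 : (g x).1 = (g y).1 := congrArg Subtype.val hg1
    by_cases hx : ω ∣ x.1
    · by_cases hy : ω ∣ y.1
      · obtain ⟨k, hk⟩ := hx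
        obtain ⟨l, hl⟩ := hy
        rw [hk, hl, ceil_mul, ceil_mul] at hc2
        apply Subtype.ext
        rw [hk, hl, hc2]
      · rw [g1 x hx, g2 y hy] at hg2
        exact absurd hg2 (Ordinal.natCast_lt_omega0 _).ne'
    · by_cases hy : ω ∣ y.1
      · rw [g2 x hx, g1 y hy] at hg2
        exact absurd hg2 (Ordinal.natCast_lt_omega0 _).ne
      · rw [g2 x hx, g2 y hy] at hg2
        exact henc (by exact_mod_cast hg2)
  exact ⟨fun x => (c x, g x), hc.prodMk hg, hinj⟩

lemma card_pow_le (n : ℕ) : ((ω : Ordinal.{0}) ^ n).card ≤ Cardinal.aleph0 := by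
  induction n with
  | zero => simp
  | succ n ih =>
    rw [pow_succ, Ordinal.card_mul]
    have h2 : (ω : Ordinal.{0}).card ≤ Cardinal.aleph0 := by simp
    exact (mul_le_mul' ih h2).trans Cardinal.aleph0_mul_aleph0.le

/-- `ω ^ n + 1` embeds into a finite power of `ω + 1`. -/
lemma exists_power (n : ℕ) : ∃ (k : ℕ) (_ : 0 < k)
    (e : Iic ((ω : Ordinal.{0}) ^ n) → Fin k → Iic (ω : Ordinal.{0})),
      Continuous e ∧ Function.Injective e := by
  induction n with
  | zero =>
    have h : ∀ x : Iic ((ω : Ordinal.{0}) ^ 0), x.1 ≤ ω := fun x => by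
      have := x.2
      simp only [pow_zero, mem_Iic] at this
      exact this.trans Ordinal.one_lt_omega0.le
    refine ⟨1, one_pos, fun x _ => ⟨x.1, h x⟩, ?_, ?_⟩
    · exact continuous_pi fun _ => continuous_subtype_val.subtype_mk _
    · intro x y hxy
      have := congrArg Subtype.val (congrFun hxy 0)
      exact Subtype.ext this
  | succ n ih =>
    obtain ⟨k, hk, e, he, hi⟩ := ih
    have hcount : (Iic ((ω : Ordinal.{0}) * ω ^ n)).Countable := by
      apply countable_Iic
      rw [← pow_succ']
      exact card_pow_le _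
    obtain ⟨e', he', hi'⟩ := exists_embedding _ hcount
    rw [pow_succ']
    refine ⟨k + 1, by omega, fun x => Fin.cons (e' x).2 (e (e' x).1), ?_, ?_⟩
    · refine continuous_pi fun i => ?_
      refine Fin.cases ?_ (fun j => ?_) i
      · simp only [Fin.cons_zero]
        exact continuous_snd.comp he'
      · simp only [Fin.cons_succ]
        exact (continuous_apply j).comp (he.comp (continuous_fst.comp he'))
    · intro x y hxy
      have h0 := congrFun hxy 0
      simp only [Fin.cons_zero] at h0
      have h1 : e (e' x).1 = e (e' y).1 := by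
        funext j
        have := congrFun hxy j.succ
        simpa only [Fin.cons_succ] using this
      exact hi' (Prod.ext (hi h1) h0)

/-- A closed initial segment of the ordinals which maps continuously and injectively into a finite
power of `ω + 1`. -/
lemma nabla_Iic_pow (n : ℕ) (h : MonotonicallyNormal (Nabla (Iic (ω : Ordinal.{0})))) :
    MonotonicallyNormal (Nabla (Iic ((ω : Ordinal.{0}) ^ n))) := by
  obtain ⟨k, hk, e, he, hi⟩ := exists_power n
  have : NeZero k := ⟨hk.ne'⟩
  exact nabla_of_inducing (Nat.divModEquiv k) e (he.isClosedEmbedding hi).isInducing h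

lemma nabla_subspace {X Y : Type*} [TopologicalSpace X] [TopologicalSpace Y] (e : X → Y)
    (he : IsInducing e) (h : MonotonicallyNormal (Nabla Y)) : MonotonicallyNormal (Nabla X) := by
  refine nabla_of_inducing (ι := Unit) (Equiv.prodPUnit ℕ).symm (fun x _ => e x) ?_ h
  have h1 : IsInducing (fun (y : Y) (_ : Unit) => y) :=
    (Homeomorph.funUnique Unit Y).symm.isInducing
  exact h1.comp he

lemma nabla_mono {α β : Ordinal.{0}} (h : α ≤ β) (hβ : Δ β) : Δ α := by
  refine nabla_subspace (Set.inclusion (Iio_subset_Iio h)) ?_ hβ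
  exact (Topology.IsEmbedding.inclusion _).isInducing

lemma Iio_add_one (a : Ordinal.{0}) : Iio (a + 1) = Iic a := by
  ext x
  simp [Order.lt_add_one_iff]

/-- **Theorem.** The nabla powers `∇ (α) ^ ω` for the ordinals `α` with `ω + 1 ≤ α < ω ^ ω` are
either all monotonically normal or none of them is.  In particular `Δ (ω + 1)` implies
`Δ (ω * ω + 1)`, which is the positive answer to Q1. -/
theorem result :
    (∀ α : Ordinal.{0}, ω + 1 ≤ α → α < ω ^ (ω : Ordinal.{0}) → (Δ α ↔ Δ (ω + 1))) ∧
      (Δ (ω + 1) → Δ (ω * ω + 1)) := by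
  have main : ∀ α : Ordinal.{0}, α < ω ^ (ω : Ordinal.{0}) → Δ (ω + 1) → Δ α := by
    intro α hα h
    obtain ⟨c, hc, hα⟩ := (Ordinal.lt_opow_of_isSuccLimit Ordinal.omega0_ne_zero
      Ordinal.isSuccLimit_omega0).1 hα
    obtain ⟨n, rfl⟩ := Ordinal.lt_omega0.1 hc
    rw [Ordinal.opow_natCast] at hα
    have h2 : α ≤ ω ^ n + 1 := hα.le.trans (Order.le_succ _)
    apply nabla_mono h2
    rw [Δ, Iio_add_one] at h ⊢
    exact nabla_Iic_pow n h
  refine ⟨fun α h1 h2 => ⟨fun h => nabla_mono h1 h, main α h2⟩, main _ ?_⟩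
  refine (Ordinal.lt_opow_of_isSuccLimit Ordinal.omega0_ne_zero
    Ordinal.isSuccLimit_omega0).2 ⟨(3 : ℕ), Ordinal.natCast_lt_omega0 3, ?_⟩
  rw [Ordinal.opow_natCast, pow_succ]
  have h1 : (ω : Ordinal.{0}) * ω < ω ^ 2 * ω := by
    rw [pow_two]
    have := (Ordinal.isNormal_mul_right (a := (ω : Ordinal.{0}) * ω)
      (by rw [← pow_two]; exact pow_pos Ordinal.omega0_pos 2)).strictMono Ordinal.one_lt_omega0
    simpa only [mul_one] using this
  have h2 : Order.IsSuccLimit ((ω : Ordinal.{0}) ^ 2 * ω) := by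
    rw [Ordinal.isSuccLimit_iff, Ordinal.isSuccPrelimit_iff_omega0_dvd]
    refine ⟨?_, ?_⟩
    · rw [← pow_succ]
      exact (pow_pos Ordinal.omega0_pos 3).ne'
    · rw [pow_two, mul_assoc]
      exact Dvd.intro _ rfl
  exact h2.succ_lt h1

end Pool.Agent.Results.MP_1ca6f4_lc.BelowOmegaOmega
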